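import Pool.Agent.Helper16.HR.Fin

/-! A local HOD dichotomy from simultaneous stationary reflection (the definitions of the statement
are in `Pool/Agent/Helper16/HR/Defs3.lean`, `Pool/Agent/Helper16/HR/Defs2.lean`,
`Pool/Agent/Helper16/HR/Defs.lean`, `Pool/Agent/Helper73/HODC/Defs.lean`,
`Pool/Agent/Helper73/HM/Defs.lean`, `Pool/Agent/Helper73/HU/Defs.lean`,
`Pool/Agent/Helper73/HV/Defs.lean`, `Pool/Agent/Helper73/HX/Defs.lean` and
`Pool/Agent/Helper36/HS/Defs2.lean`). -/

namespace Pool.Agent.Results.MP_dbe07f_lc.LocalDichotomy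

open Pool.Agent.Helper73.HODC Pool.Agent.Helper73.HM Pool.Agent.Helper73.HX
open Pool.Agent.Helper16.HR
open Ordinal Cardinal Order

/-- Let `ω ≤ χ < κ` be cardinals such that `κ` is extendible, or every `κ`-complete filter extends
to a `χ⁺`-complete ultrafilter, or `SimRefl χ κ` holds (which follows from each of the first two
conditions).

(A) Let `ν` be an ordinal and let `θ` be an uncountable cardinal with `κ ≤ θ⁺`, `|ν| ≤ θ` and
`2 ^ |ζ| ≤ θ` for all `ζ < ν` (for example, `ν = θ ≥ κ` a strong limit cardinal). Then either every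
regular `c > θ` is `Large` or `Close χ κ ν` holds. (In particular, if some regular `c > κ` is
omega-strongly measurable in HOD, then every regular cardinal greater than `2 ^ ζ` for all `ζ < c`
and greater than `c` is.)

(B) The following are equivalent: the HOD Hypothesis; `Close χ κ ν` for all `ν`; every set of at
most `χ` ordinals is ordinal definable from a bounded subset of `κ`; for some set `B` every
countable set of ordinals is ordinal definable from an element of `B`; `(σ⁺)^HOD = σ⁺` for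
arbitrarily large `σ`; no regular `c > κ` is omega-strongly measurable in HOD; arbitrarily large
regular cardinals are not `Large`. -/
theorem result (χ κ : Cardinal.{0}) (hχ : ℵ₀ ≤ χ) (hκ : χ < κ)
    (h : Extendible κ ∨ ExtFilters (succ χ) κ ∨ SimRefl χ κ) :
    (∀ (ν : Ordinal.{0}) (θ : Cardinal.{0}), ℵ₀ < θ → κ ≤ succ θ → ν.card ≤ θ →
      (∀ ζ < ν, (2 : Cardinal.{0}) ^ ζ.card ≤ θ) →
      (∀ c : Cardinal.{0}, c.IsRegular → θ < c → Large c) ∨ Close χ κ ν) ∧
    List.TFAE [
      HODHypothesis,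
      ∀ ν : Ordinal.{0}, Close χ κ ν,
      ∀ X : Set Ordinal.{0}, Cardinal.mk X ≤ Cardinal.lift.{1} χ →
        ∃ η < κ.ord, ∃ b : ZFSet.{0}, b ⊆ η.toZFSet ∧ SetODFrom b X,
      ∃ B : ZFSet.{0}, ∀ X : Set Ordinal.{0}, X.Countable → ∃ b ∈ B, SetODFrom b X,
      ∀ θ : Cardinal.{0}, ∃ σ : Cardinal.{0}, θ < σ ∧ SuccCorrect σ,
      ∀ c : Cardinal.{0}, c.IsRegular → κ < c → ¬ OmegaStronglyMeasurable c.ord,
      ∀ θ : Cardinal.{0}, ∃ c : Cardinal.{0}, θ < c ∧ c.IsRegular ∧ ¬ Large c] :=
  fin χ κ hχ hκ h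

end Pool.Agent.Results.MP_dbe07f_lc.LocalDichotomy
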