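import Pool.Agent.Helper19.HN.Top

/-! Equivalents of the failure of the HOD Hypothesis above a strongly compact or extendible
cardinal: local non-rigidity and ineffability of HOD (the definitions of the statement are in
`Pool/Agent/Helper73/HODC/Defs.lean`, `Pool/Agent/Helper73/HM/Defs.lean`,
`Pool/Agent/Helper73/HX/Defs.lean` and `Pool/Agent/Helper19/HN/Notions.lean`). -/

namespace Pool.Agent.Results.MP_dbe07f_lc.LocalNonRigidity

open Pool.Agent.Helper73.HODC Pool.Agent.Helper73.HM Pool.Agent.Helper73.HX
open Pool.Agent.Helper19.HN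
open Ordinal Cardinal Order

/-- Let `κ` be a strongly compact or an extendible cardinal. The following are equivalent.

* The HOD Hypothesis fails.
* There is a cardinal `θ`, namely `θ = κ` if `κ` is extendible, such that for every regular
  cardinal `c > θ` the following hold. (`NonRigid c`) There are a closed unbounded set `C ⊆ c`
  and, for all `g ∈ C`, elementary embeddings of `V_(g+1)` of HOD into `V_(c+1)` of HOD which are
  the identity on `V_g` of HOD and map `g` to `c`, with ranges increasing and continuous in `g`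
  and with union all of `V_(c+1)` of HOD, which is thus the direct limit of the sets `V_(g+1)` of
  HOD. (`Ineff c`) For every stationary set `S ⊆ c` and every function `y` on `S` in `V` with
  `y g ∈ V_(g+1)` of HOD for all `g ∈ S` there is `x ∈ V_(c+1)` of HOD such that `y g = x ∩ V_g`
  for stationarily many `g ∈ S`.
* There is such an embedding for one regular cardinal `c` and one limit ordinal `g` with
  `κ ≤ g < c` and `cf g < κ`.
* For one regular cardinal `c > κ`, for every sequence `⟨y g : g < c⟩` in HOD with `y g ⊆ g`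
  there is a set `b ⊆ c` in HOD with `y g = b ∩ g` for stationarily many (in the sense of `V`)
  ordinals `g < c` of cofinality `ω`. -/
theorem result (κ : Cardinal.{0}) (hκ : StronglyCompact κ ∨ Extendible κ) :
    (¬ HODHypothesis ↔ ∃ θ : Cardinal.{0}, (Extendible κ → θ = κ) ∧
      ∀ c : Cardinal.{0}, c.IsRegular → θ < c → NonRigid c ∧ Ineff c) ∧
    (¬ HODHypothesis ↔ ∃ (c : Cardinal.{0}) (g : Ordinal.{0}) (i : ZFSet.{0} → ZFSet.{0}),
      c.IsRegular ∧ IsSuccLimit g ∧ κ.ord ≤ g ∧ g < c.ord ∧ g.cof < κ ∧ HEmb g c.ord i) ∧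
    (¬ HODHypothesis ↔ ∃ c : Cardinal.{0}, c.IsRegular ∧ κ < c ∧ WeakIneff c) :=
  ⟨(top κ (sc_or hκ)).out 0 1, (top κ (sc_or hκ)).out 0 2, (top κ (sc_or hκ)).out 0 3⟩

end Pool.Agent.Results.MP_dbe07f_lc.LocalNonRigidity
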