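import Pool.Agent.Helper19.HO.Top

/-! A dichotomy for the HOD Hypothesis: measurable cardinals of HOD on closed unbounded sets (the
definitions of the statement are in `Pool/Agent/Helper73/HODC/Defs.lean`,
`Pool/Agent/Helper73/HM/Defs.lean`, `Pool/Agent/Helper73/HU/Defs.lean`,
`Pool/Agent/Helper73/HX/Defs.lean` and `Pool/Agent/Helper19/HO/Defs.lean`). -/

namespace Pool.Agent.Results.MP_dbe07f_lc.MeasurablePoints

open Pool.Agent.Helper73.HODC Pool.Agent.Helper73.HM Pool.Agent.Helper73.HX
open Pool.Agent.Helper19.HO Ordinal Cardinal Order

/-- Let `κ` be a strongly compact or an extendible cardinal. Then either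

* the HOD Hypothesis holds, and every limit ordinal `α ≥ κ` of cofinality less than `κ` is
  singular in HOD; or
* for some cardinals `θ` and `μ`, and with `θ = κ` and `μ < κ` if `κ` is extendible, all regular
  cardinals `c > θ` are omega-strongly measurable in HOD (so the HOD Hypothesis fails), and there
  is a closed unbounded set `C ⊆ c` such that all `g ∈ C`, and `g = c`, are regular in HOD, are
  measurable in HOD if the cofinality of `g` is at least `μ`, and are, if the cofinality of `g` is
  greater than `θ`, of Mitchell order at least `κ` in HOD: HOD contains a sequence of length `κ`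
  of normal ultrafilters on `g` (in the sense of HOD) which is increasing in the Mitchell order of
  HOD. -/
theorem result (κ : Cardinal.{0}) (hκ : StronglyCompact κ ∨ Extendible κ) :
    (HODHypothesis ∧
      ∀ α : Ordinal.{0}, IsSuccLimit α → κ.ord ≤ α → α.cof < κ → HODSing α) ∨
    (∃ θ μ : Cardinal.{0}, (Extendible κ → θ = κ ∧ μ < κ) ∧
      ∀ c : Cardinal.{0}, c.IsRegular → θ < c →
        OmegaStronglyMeasurable c.ord ∧ MeasurableClub κ θ μ c) :=
  dichotomy κ (sc_or hκ)

end Pool.Agent.Results.MP_dbe07f_lc.MeasurablePoints
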