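import Pool.Agent.Helper73.HX.Top

/-! Supercompactness in HOD if the HOD Hypothesis fails above a strongly compact or extendible
cardinal (the definitions of the statement are in `Pool/Agent/Helper73/HODC/Defs.lean`,
`Pool/Agent/Helper73/HM/Defs.lean`, `Pool/Agent/Helper73/HU/Defs.lean`,
`Pool/Agent/Helper73/HV/Defs.lean`, `Pool/Agent/Helper36/HS/{Defs,Defs2}.lean` and
`Pool/Agent/Helper73/HX/Defs.lean`). -/

namespace Pool.Agent.Results.MP_dbe07f_lc.Supercompact

open Pool.Agent.Helper73.HODC Pool.Agent.Helper73.HM Pool.Agent.Helper73.HU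
open Pool.Agent.Helper73.HX Pool.Agent.Helper36.HS Ordinal Cardinal Order

/-- Let `κ` be a strongly compact or an extendible cardinal and suppose that the HOD Hypothesis
fails. Then there is a cardinal `θ`, namely `θ = κ` if `κ` is extendible, such that for all
regular cardinals `c > θ`
the following holds. If `τ = (c⁺)^HOD` is the next regular cardinal of HOD after `c`, then either
the cofinality of `τ` (in `V`) is `ω`, or `c` is `τ`-supercompact in HOD (HOD contains a
`c`-complete normal fine ultrafilter on `P_c(τ)`) and every set of fewer than `c` ordinals below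
`τ` is covered by a set in HOD of size less than `c`. More generally, for each regular cardinal
`δ ∈ [c, c⁺)` of HOD, one of the following holds:

* all regular cardinals of HOD in `[c, δ]` have cofinality `c`, every set of fewer than `c`
  ordinals below `δ` is covered by a set in HOD of size less than `c`, and `c` is
  `δ`-supercompact in HOD;
* the cofinality of `δ` is at most `θ` (and it is `ω` if `δ` is the successor in HOD of a
  regular cardinal of HOD of cofinality `c`);
* the cofinality of `δ` is greater than `θ`, and for every regular cardinal `ν < κ` some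
  `η ∈ (c, δ]` of the same cofinality as `δ` is a limit of regular cardinals of HOD whose
  cofinality is `ν`.

(So if `ζ` is the least regular cardinal of HOD above `c` whose cofinality is not `c`, then `c` is
`δ`-supercompact in HOD for all regular cardinals `δ` of HOD in `[c, ζ)`, and if `ζ < c⁺` then the
cofinality of `ζ` is at most `θ`.) -/
theorem result (κ : Cardinal.{0}) (hκ : StronglyCompact κ ∨ Extendible κ)
    (hH : ¬ HODHypothesis) :
    ∃ θ : Cardinal.{0}, (Extendible κ → θ = κ) ∧ ∀ c : Cardinal.{0}, c.IsRegular → θ < c →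
      (∀ τ, HODNext c.ord τ →
        τ.cof = ℵ₀ ∨ (HODCover c τ ∧ ∃ W, HODNFine c c.ord τ W)) ∧
      ∀ δ, c.ord ≤ δ → δ < (succ c).ord → HODReg δ →
        ((∀ ζ, c.ord ≤ ζ → ζ ≤ δ → HODReg ζ → ζ.cof = c) ∧ HODCover c δ ∧
          ∃ W, HODNFine c c.ord δ W) ∨
        (δ.cof ≤ θ ∧ ∀ μ, HODReg μ → μ.cof = c → HODNext μ δ → δ.cof = ℵ₀) ∨
        (θ < δ.cof ∧ ∀ ν : Cardinal.{0}, ν.IsRegular → ν < κ → ∃ η, c.ord < η ∧ η ≤ δ ∧
          η.cof = δ.cof ∧ ∀ β < η, ∃ ζ, β < ζ ∧ ζ < η ∧ HODReg ζ ∧ ζ.cof = ν) :=
  supercompact κ (sc_or hκ) hH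

end Pool.Agent.Results.MP_dbe07f_lc.Supercompact
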